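import Mathlib
import Pool.Agent.Q307.SBC.Defs
import Pool.Agent.Q307.SBC.Fin

set_option autoImplicit false

/-! MP_89350a_an, Q1: the answer is yes. -/

namespace Pool.Agent.Results.MP_89350a_an.ContinuousDenseIndependent

open Pool.Agent.Q307.SBC

/-- For `𝕜 = ℝ` or `ℂ` there are an admissible topology `τ` on the set of all closed linear
subspaces of `C(Δ)`, `Δ` the Cantor set, and `τ`-continuous maps `h_i` such that `X` is the closure
of `{h_i(X)}` for every `X`, and the `h_i(X)` are linearly independent for every `X` of infinite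
dimension. -/
theorem result : ∀ (𝕜 : Type) [RCLike 𝕜],
    ∃ τ : TopologicalSpace (SB 𝕜 C(cantorSet, 𝕜)), Admissible τ ∧
      ∃ h : ℕ → SB 𝕜 C(cantorSet, 𝕜) → C(cantorSet, 𝕜),
        (∀ i, @Continuous _ _ τ _ (h i)) ∧
        (∀ X : SB 𝕜 C(cantorSet, 𝕜),
          (X.1 : Set C(cantorSet, 𝕜)) = closure (Set.range fun i => h i X)) ∧
        (∀ X : SB 𝕜 C(cantorSet, 𝕜), ¬ FiniteDimensional 𝕜 X.1 →
          LinearIndependent 𝕜 (fun i => h i X)) := by
  intro 𝕜 _
  haveI : CompactSpace cantorSet := isCompact_iff_compactSpace.1 isCompact_cantorSet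
  haveI : SecondCountableTopology C(cantorSet, 𝕜) := inferInstance
  exact main

end Pool.Agent.Results.MP_89350a_an.ContinuousDenseIndependent
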